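import Pool.Agent.Work.MP_a8f287_co.Defs

/-!
The Crapo-Rota theorem for binary matroids at `2 ^ k`.
-/

namespace Pool.Agent.WW

open Submodule Module

variable {V W : Type*} [AddCommGroup V] [Module (ZMod 2) V]
  [AddCommGroup W] [Module (ZMod 2) W]

/-- maps vanishing on a submodule are the maps from the quotient -/
noncomputable def vanishEquiv (P : Submodule (ZMod 2) V) (M : Type*) [AddCommGroup M]
    [Module (ZMod 2) M] :
    {f : V →ₗ[ZMod 2] M // P ≤ LinearMap.ker f} ≃ ((V ⧸ P) →ₗ[ZMod 2] M) where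
  toFun f := P.liftQ f.1 f.2
  invFun g := ⟨g.comp P.mkQ, by
    intro x hx
    rw [LinearMap.mem_ker, LinearMap.comp_apply, Submodule.mkQ_apply,
      (Submodule.Quotient.mk_eq_zero P).2 hx, map_zero]⟩
  left_inv f := by
    apply Subtype.ext
    exact P.liftQ_mkQ f.1 f.2
  right_inv g := by
    apply Submodule.linearMap_qext
    exact P.liftQ_mkQ _ _

theorem card_vanish [FiniteDimensional (ZMod 2) V] (P : Submodule (ZMod 2) V) (k : ℕ) :
    Nat.card {f : V →ₗ[ZMod 2] (Fin k → ZMod 2) // P ≤ LinearMap.ker f} =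
      (2 ^ k) ^ (finrank (ZMod 2) V - finrank (ZMod 2) ↥P) := by
  rw [Nat.card_congr (vanishEquiv P (Fin k → ZMod 2)),
    Module.natCard_eq_pow_finrank (K := ZMod 2), Nat.card_zmod, Module.finrank_linearMap,
    Module.finrank_fin_fun, Submodule.finrank_quotient, ← pow_mul, mul_comm]

/-- Crapo-Rota for binary matroids at `λ = 2 ^ k` -/
theorem crapo_rota {ι : Type*} [Fintype ι] [DecidableEq ι] [FiniteDimensional (ZMod 2) V]
    (v : ι → V) (k : ℕ) :
    ∑ X : Finset ι, (-1 : ℤ) ^ X.card * (2 ^ k) ^ (finrank (ZMod 2) V -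
      finrank (ZMod 2) ↥(span (ZMod 2) (v '' (X : Set ι)))) =
    Nat.card {f : V →ₗ[ZMod 2] (Fin k → ZMod 2) // ∀ i, f (v i) ≠ 0} := by
  classical
  have hfin : Finite (V →ₗ[ZMod 2] (Fin k → ZMod 2)) := Module.finite_of_finite (ZMod 2)
  have : Fintype (V →ₗ[ZMod 2] (Fin k → ZMod 2)) := Fintype.ofFinite _
  have hX : ∀ X : Finset ι, ((2 : ℤ) ^ k) ^ (finrank (ZMod 2) V -
      finrank (ZMod 2) ↥(span (ZMod 2) (v '' (X : Set ι)))) =
      ∑ f : V →ₗ[ZMod 2] (Fin k → ZMod 2), ∏ i ∈ X, (if f (v i) = 0 then (1 : ℤ) else 0) := by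
    intro X
    have h := card_vanish (span (ZMod 2) (v '' (X : Set ι))) k
    rw [Nat.card_eq_fintype_card, Fintype.card_subtype] at h
    have h' : ((2 : ℤ) ^ k) ^ (finrank (ZMod 2) V -
        finrank (ZMod 2) ↥(span (ZMod 2) (v '' (X : Set ι)))) =
        (((Finset.univ.filter fun f : V →ₗ[ZMod 2] (Fin k → ZMod 2) =>
          span (ZMod 2) (v '' (X : Set ι)) ≤ LinearMap.ker f).card : ℕ) : ℤ) := by
      rw [h]; push_cast; rfl
    rw [h', Finset.card_filter, Nat.cast_sum]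
    refine Finset.sum_congr rfl fun f _ => ?_
    rw [Finset.prod_ite_zero]
    simp only [Finset.prod_const_one]
    have hiff : (span (ZMod 2) (v '' (X : Set ι)) ≤ LinearMap.ker f) ↔ ∀ i ∈ X, f (v i) = 0 := by
      rw [Submodule.span_le]
      constructor
      · intro hh i hi
        exact hh ⟨i, hi, rfl⟩
      · rintro hh _ ⟨i, hi, rfl⟩
        exact hh i hi
    by_cases hc : ∀ i ∈ X, f (v i) = 0
    · rw [if_pos hc, if_pos (hiff.2 hc)]; rfl
    · rw [if_neg hc, if_neg (fun h => hc (hiff.1 h))]; rfl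
  have hsum : ∑ X : Finset ι, (-1 : ℤ) ^ X.card * (2 ^ k) ^ (finrank (ZMod 2) V -
      finrank (ZMod 2) ↥(span (ZMod 2) (v '' (X : Set ι)))) =
      ∑ f : V →ₗ[ZMod 2] (Fin k → ZMod 2), ∏ i : ι,
        (1 + -(if f (v i) = 0 then (1 : ℤ) else 0)) := by
    simp only [hX, Finset.mul_sum]
    rw [Finset.sum_comm]
    refine Finset.sum_congr rfl fun f _ => ?_
    rw [Finset.prod_one_add, Finset.powerset_univ]
    refine Finset.sum_congr rfl fun X _ => ?_
    rw [Finset.prod_neg]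
  rw [hsum, Nat.card_eq_fintype_card, Fintype.card_subtype, Finset.card_filter, Nat.cast_sum]
  refine Finset.sum_congr rfl fun f _ => ?_
  by_cases hc : ∀ i, f (v i) ≠ 0
  · rw [if_pos hc]
    simp [hc]
  · rw [if_neg hc]
    push Not at hc
    obtain ⟨i, hi⟩ := hc
    rw [Finset.prod_eq_zero (Finset.mem_univ i)]
    · rfl
    · simp [hi]

end Pool.Agent.WW
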