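import Pool.Agent.Work.MP_a8f287_co.Defs

/-!
`HasK5` gives an `M(K5)`-minor in the format of the frozen statement.
-/

namespace Pool.Agent.WW

open Submodule Module

variable {V W : Type*} [AddCommGroup V] [Module (ZMod 2) V]
  [AddCommGroup W] [Module (ZMod 2) W]

theorem frz_two_add {M : Type*} [AddCommGroup M] [Module (ZMod 2) M] (v : M) : v + v = 0 := by
  have : (2 : ZMod 2) • v = 0 := by
    rw [show (2 : ZMod 2) = 0 from rfl, zero_smul]
  rwa [two_smul] at this

/-- The value on an edge of the sum of a vertex function. -/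
def frzEsum {α M : Type*} [AddCommGroup M] (b : α → M) (e : Sym2 α) : M :=
  Sym2.lift ⟨fun u v => b u + b v, fun _ _ => add_comm _ _⟩ e

@[simp] theorem frzEsum_mk {α M : Type*} [AddCommGroup M] (b : α → M) (u v : α) :
    frzEsum b s(u, v) = b u + b v := rfl

/-- incidence vector of an edge -/
def frzInc {α : Type*} [DecidableEq α] (e : Sym2 α) : α → ZMod 2 :=
  frzEsum (fun u => Pi.single u 1) e

theorem frzInc_mk {α : Type*} [DecidableEq α] (u v : α) :
    frzInc s(u, v) = Pi.single u 1 + Pi.single v 1 := rfl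

theorem frz_walk_mem {α : Type*} [DecidableEq α] {G : SimpleGraph α} {u v : α} (p : G.Walk u v) :
    (Pi.single u 1 + Pi.single v 1 : α → ZMod 2) ∈ span (ZMod 2) (frzInc '' G.edgeSet) := by
  induction p with
  | nil => rw [frz_two_add]; exact zero_mem _
  | @cons u v w h p ih =>
    have h1 : (Pi.single u 1 + Pi.single v 1 : α → ZMod 2) ∈
        span (ZMod 2) (frzInc '' G.edgeSet) :=
      subset_span ⟨s(u, v), h, rfl⟩
    have h2 := add_mem h1 ih
    have h3 : (Pi.single u 1 + Pi.single w 1 : α → ZMod 2) =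
        Pi.single u 1 + Pi.single v 1 + (Pi.single v 1 + Pi.single w 1) := by
      rw [add_assoc, ← add_assoc (Pi.single v 1 : α → ZMod 2) (Pi.single v 1), frz_two_add,
        zero_add]
    rw [h3]
    exact h2

/-- The frzCut functional. -/
noncomputable def frzCut {α : Type*} [Fintype α] (X : Set α) : (α → ZMod 2) →ₗ[ZMod 2] ZMod 2 :=
  haveI := Classical.decPred (· ∈ X)
  ∑ w ∈ Finset.univ.filter (· ∈ X), LinearMap.proj w

open Classical in
theorem frzCut_single {α : Type*} [Fintype α] [DecidableEq α] (X : Set α) (u : α) :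
    frzCut X (Pi.single u 1) = if u ∈ X then 1 else 0 := by
  unfold frzCut
  rw [LinearMap.sum_apply]
  simp only [LinearMap.proj_apply]
  rw [Finset.sum_pi_single']
  simp

theorem frz_graphic {α : Type*} [Fintype α] [DecidableEq α] {ι : Type*} (f : ι → Sym2 α)
    (hinj : Function.Injective f) (hdiag : ∀ i, ¬ (f i).IsDiag) :
    LinearIndependent (ZMod 2) (fun i => frzInc (f i)) ↔
      (SimpleGraph.fromEdgeSet (Set.range f)).IsAcyclic := by
  classical
  set G := SimpleGraph.fromEdgeSet (Set.range f) with hG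
  have hedge : G.edgeSet = Set.range f := by
    rw [hG, SimpleGraph.edgeSet_fromEdgeSet]
    ext e
    constructor
    · exact fun h => h.1
    · rintro ⟨i, rfl⟩
      exact ⟨⟨i, rfl⟩, hdiag i⟩
  rw [SimpleGraph.isAcyclic_iff_forall_isBridge]
  constructor
  · intro hli e he
    rw [hedge] at he
    obtain ⟨i, rfl⟩ := he
    rcases hfi : f i with ⟨u, v⟩
    change G.IsBridge s(u, v)
    rw [SimpleGraph.isBridge_iff]
    rintro ⟨p⟩
    have h1 := frz_walk_mem p
    have h2 : frzInc '' (G.deleteEdges {s(u, v)}).edgeSet ⊆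
        (fun j => frzInc (f j)) '' {j | j ≠ i} := by
      rintro _ ⟨e, he, rfl⟩
      rw [SimpleGraph.edgeSet_deleteEdges, hedge] at he
      obtain ⟨⟨j, rfl⟩, hj⟩ := he
      refine ⟨j, ?_, rfl⟩
      rintro rfl
      exact hj hfi
    have h3 := span_mono h2 h1
    have h4 : frzInc (f i) ∉ span (ZMod 2) ((fun j => frzInc (f j)) '' {j | j ≠ i}) :=
      hli.notMem_span_image (by simp)
    apply h4
    rw [hfi]
    exact h3
  · intro hbr
    rw [linearIndependent_iff']
    intro s g hsum i hi
    have hbi := hbr (e := f i) (by rw [hedge]; exact ⟨i, rfl⟩)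
    rcases hfi : f i with ⟨u, v⟩
    rw [hfi] at hbi
    change G.IsBridge s(u, v) at hbi
    rw [SimpleGraph.isBridge_iff] at hbi
    set X : Set α := {w | (G.deleteEdges {s(u, v)}).Reachable u w} with hX
    have hu : u ∈ X := SimpleGraph.Reachable.refl u
    have hv : v ∉ X := hbi
    have h1 : frzCut X (frzInc (f i)) = 1 := by
      rw [hfi]
      change frzCut X (frzInc s(u, v)) = 1
      rw [frzInc_mk, map_add, frzCut_single, frzCut_single, if_pos hu, if_neg hv, add_zero]
    have h2 : ∀ j, j ≠ i → frzCut X (frzInc (f j)) = 0 := by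
      intro j hj
      rcases hfj : f j with ⟨a, b⟩
      change frzCut X (frzInc s(a, b)) = 0
      have hadj : (G.deleteEdges {s(u, v)}).Adj a b := by
        rw [← SimpleGraph.mem_edgeSet, SimpleGraph.edgeSet_deleteEdges, hedge]
        refine ⟨⟨j, hfj⟩, ?_⟩
        intro h
        exact hj (hinj (hfj.trans (h.trans hfi.symm)))
      have hab : a ∈ X ↔ b ∈ X :=
        ⟨fun h => SimpleGraph.Reachable.trans h hadj.reachable,
          fun h => SimpleGraph.Reachable.trans h hadj.symm.reachable⟩
      rw [frzInc_mk, map_add, frzCut_single, frzCut_single]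
      by_cases ha : a ∈ X
      · rw [if_pos ha, if_pos (hab.1 ha)]; rfl
      · rw [if_neg ha, if_neg (fun h => ha (hab.2 h))]; rfl
    have h3 := congrArg (frzCut X) hsum
    rw [map_sum, map_zero, Finset.sum_eq_single_of_mem i hi] at h3
    · rw [map_smul, h1, smul_eq_mul, mul_one] at h3
      exact h3
    · intro j _ hj
      rw [map_smul, h2 j hj, smul_zero]

theorem frozen_of_hasK5 {n : ℕ} (S : Set (Fin n → ZMod 2)) (h : HasK5 S) :
    ∃ (C : Set (Fin n → ZMod 2))
          (h : (⊤ : SimpleGraph (Fin 5)).edgeSet → (Fin n → ZMod 2)),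
          C ⊆ S ∧ Function.Injective h ∧ (∀ e, h e ∈ S \ C) ∧
          ∀ F : Set (⊤ : SimpleGraph (Fin 5)).edgeSet,
            (LinearIndependent (ZMod 2)
                (fun e : F => (Submodule.span (ZMod 2) C).mkQ (h e.1)) ↔
              (SimpleGraph.fromEdgeSet (Subtype.val '' F)).IsAcyclic) := by
  classical
  obtain ⟨K, hgen, s, hind, hs1, hs2⟩ := h
  set sv : Fin 5 → (Fin n → ZMod 2) := Fin.cons 0 s with hsv
  have hsv0 : sv 0 = 0 := rfl
  have hsvs : ∀ i : Fin 4, sv i.succ = s i := fun i => rfl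
  have hex : ∀ e : (⊤ : SimpleGraph (Fin 5)).edgeSet, ∃ x ∈ S, x + frzEsum sv e.1 ∈ K := by
    rintro ⟨⟨u, v⟩, he⟩
    change ∃ x ∈ S, x + (sv u + sv v) ∈ K
    have huv : u ≠ v := he
    induction u using Fin.cases with
    | zero =>
      induction v using Fin.cases with
      | zero => exact absurd rfl huv
      | succ v =>
        rw [hsv0, hsvs, zero_add]
        exact hs1 v
    | succ u =>
      induction v using Fin.cases with
      | zero =>
        rw [hsv0, hsvs, add_zero]
        exact hs1 u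
      | succ v =>
        rw [hsvs, hsvs]
        exact hs2 u v (fun h => huv (by rw [h]))
  choose g hgS hgK using hex
  have hspan : span (ZMod 2) (S ∩ K) = K :=
    le_antisymm (span_le.2 Set.inter_subset_right) hgen
  -- the comparison map
  set Ψ : (Fin 5 → ZMod 2) →ₗ[ZMod 2] ((Fin n → ZMod 2) ⧸ K) :=
    K.mkQ ∘ₗ Fintype.linearCombination (ZMod 2) sv with hΨ
  have hΨs : ∀ u, Ψ (Pi.single u 1) = K.mkQ (sv u) := by
    intro u
    rw [hΨ, LinearMap.comp_apply, Fintype.linearCombination_apply_single, one_smul]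
  have hΨfrzInc : ∀ e : (⊤ : SimpleGraph (Fin 5)).edgeSet, Ψ (frzInc e.1) = K.mkQ (g e) := by
    intro e
    have h1 : Ψ (frzInc e.1) = K.mkQ (frzEsum sv e.1) := by
      rcases e with ⟨⟨u, v⟩, he⟩
      change Ψ (frzInc s(u, v)) = K.mkQ (sv u + sv v)
      rw [frzInc_mk, map_add, hΨs, hΨs, map_add]
    rw [h1]
    have h2 := hgK e
    rw [← Submodule.Quotient.mk_eq_zero, ← Submodule.mkQ_apply, map_add] at h2
    calc K.mkQ (frzEsum sv e.1) = (K.mkQ (g e) + K.mkQ (g e)) + K.mkQ (frzEsum sv e.1) := by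
          rw [frz_two_add, zero_add]
      _ = K.mkQ (g e) + (K.mkQ (g e) + K.mkQ (frzEsum sv e.1)) := by rw [add_assoc]
      _ = K.mkQ (g e) := by rw [h2, add_zero]
  -- the even weight subspace
  have hker : ∀ x : Fin 5 → ZMod 2, ∑ u, x u = 0 → Ψ x = 0 → x = 0 := by
    intro x hx0 hx
    rw [hΨ, LinearMap.comp_apply, Submodule.mkQ_apply, Submodule.Quotient.mk_eq_zero,
      Fintype.linearCombination_apply, Fin.sum_univ_succ, hsv0, smul_zero, zero_add] at hx
    have h1 := hind (fun i => x i.succ) (by simpa [hsvs] using hx)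
    rw [Fin.sum_univ_succ] at hx0
    have h2 : ∀ i : Fin 4, x i.succ = 0 := fun i => congrFun h1 i
    have h3 : x 0 = 0 := by
      rw [Finset.sum_eq_zero (fun i _ => h2 i), add_zero] at hx0
      exact hx0
    funext u
    induction u using Fin.cases with
    | zero => exact h3
    | succ i => exact h2 i
  have hsumI : ∀ e : Sym2 (Fin 5), ∑ u, frzInc e u = 0 := by
    intro e
    rcases e with ⟨u, v⟩
    change ∑ w, (Pi.single u 1 + Pi.single v 1 : Fin 5 → ZMod 2) w = 0
    simp only [Pi.add_apply]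
    rw [Finset.sum_add_distrib, Finset.sum_pi_single', Finset.sum_pi_single']
    simp only [Finset.mem_univ, if_true]
    rfl
  have hincinj : ∀ e e' : (⊤ : SimpleGraph (Fin 5)).edgeSet, frzInc e.1 = frzInc e'.1 → e = e' := by
    have hchar : ∀ e : Sym2 (Fin 5), ¬ e.IsDiag → ∀ w, frzInc e w = 1 ↔ w ∈ e := by
      intro e he w
      rcases e with ⟨u, v⟩
      change (Pi.single u 1 + Pi.single v 1 : Fin 5 → ZMod 2) w = 1 ↔ w ∈ s(u, v)
      have huv : u ≠ v := he
      rw [Pi.add_apply, Sym2.mem_iff]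
      by_cases h1 : w = u
      · have h2 : w ≠ v := fun h => huv (h1.symm.trans h)
        rw [h1, Pi.single_eq_same, Pi.single_eq_of_ne huv]
        simp
      · by_cases h2 : w = v
        · rw [h2, Pi.single_eq_same, Pi.single_eq_of_ne huv.symm]
          simp
        · rw [Pi.single_eq_of_ne h1, Pi.single_eq_of_ne h2]
          simp [h1, h2]
    intro e e' h
    apply Subtype.ext
    apply Sym2.ext
    intro w
    rw [← hchar e.1 (SimpleGraph.not_isDiag_of_mem_edgeSet _ e.2) w, h,
      hchar e'.1 (SimpleGraph.not_isDiag_of_mem_edgeSet _ e'.2) w]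
  have hincne : ∀ e : (⊤ : SimpleGraph (Fin 5)).edgeSet, frzInc e.1 ≠ 0 := by
    intro e h
    rcases e with ⟨⟨u, v⟩, he⟩
    have huv : u ≠ v := he
    have h1 := congrFun h u
    change (Pi.single u 1 + Pi.single v 1 : Fin 5 → ZMod 2) u = 0 at h1
    rw [Pi.add_apply, Pi.single_eq_same, Pi.single_eq_of_ne huv, add_zero] at h1
    exact one_ne_zero h1
  refine ⟨S ∩ K, g, Set.inter_subset_left, ?_, ?_, ?_⟩
  · intro e e' h
    apply hincinj
    have h1 : Ψ (frzInc e.1 + frzInc e'.1) = 0 := by
      rw [map_add, hΨfrzInc, hΨfrzInc, h, frz_two_add]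
    have h2 := hker _ (by
      simp only [Pi.add_apply]
      rw [Finset.sum_add_distrib, hsumI, hsumI, add_zero]) h1
    calc frzInc e.1 = frzInc e.1 + (frzInc e'.1 + frzInc e'.1) := by rw [frz_two_add, add_zero]
      _ = (frzInc e.1 + frzInc e'.1) + frzInc e'.1 := by rw [add_assoc]
      _ = frzInc e'.1 := by rw [h2, zero_add]
  · intro e
    refine ⟨hgS e, fun h => ?_⟩
    have h1 : K.mkQ (g e) = 0 := by
      rw [Submodule.mkQ_apply, Submodule.Quotient.mk_eq_zero]
      exact h.2
    rw [← hΨfrzInc] at h1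
    exact hincne e (hker _ (hsumI _) h1)
  · intro F
    rw [hspan]
    have h1 : (fun e : F => K.mkQ (g e.1)) = Ψ ∘ fun e : F => frzInc e.1.1 := by
      funext e
      exact (hΨfrzInc e.1).symm
    rw [h1, LinearMap.linearIndependent_iff_of_disjoint]
    · rw [frz_graphic (fun e : F => e.1.1) (fun e e' h => Subtype.ext (Subtype.ext h))
        (fun e => SimpleGraph.not_isDiag_of_mem_edgeSet _ e.1.2)]
      have h2 : Set.range (fun e : F => e.1.1) = Subtype.val '' F := by
        ext x
        constructor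
        · rintro ⟨e, rfl⟩
          exact ⟨e.1, e.2, rfl⟩
        · rintro ⟨e, he, rfl⟩
          exact ⟨⟨e, he⟩, rfl⟩
      rw [h2]
    · rw [Submodule.disjoint_def]
      intro x hx hx'
      refine hker x ?_ hx'
      have h3 : span (ZMod 2) (Set.range fun e : F => frzInc e.1.1) ≤
          LinearMap.ker (∑ u : Fin 5, (LinearMap.proj u : (Fin 5 → ZMod 2) →ₗ[ZMod 2] ZMod 2)) := by
        rw [span_le]
        rintro _ ⟨e, rfl⟩
        change (∑ u : Fin 5, (LinearMap.proj u : (Fin 5 → ZMod 2) →ₗ[ZMod 2] ZMod 2)) _ = 0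
        rw [LinearMap.sum_apply]
        exact hsumI _
      have h4 := h3 hx
      rw [LinearMap.mem_ker, LinearMap.sum_apply] at h4
      exact h4

end Pool.Agent.WW
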