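import Mathlib

/-!
Definitions for the proof that a binary matroid without M(K5)-minor has critical exponent
at most 5 (Walton-Welsh problem, MP_a8f287_co). Everything lives in a vector space over
`ZMod 2`; a simple binary matroid is a set `E` of nonzero vectors.
-/

namespace Pool.Agent.WW

open Submodule Module

variable {V W : Type*} [AddCommGroup V] [Module (ZMod 2) V]
  [AddCommGroup W] [Module (ZMod 2) W]

/-- `v` is congruent modulo `K` to an element of `E`. -/
def Pres (E : Set V) (K : Submodule (ZMod 2) V) (v : V) : Prop := ∃ x ∈ E, x + v ∈ K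

/-- `K` is spanned by elements of `E` (so it can be contracted). -/
def Gen (E : Set V) (K : Submodule (ZMod 2) V) : Prop := K ≤ span (ZMod 2) (E ∩ K)

/-- The vector matroid of `E` has an `M(K5)`-minor, in star form: modulo a subspace `K`
spanned by elements of `E` there are four independent vectors `s i` such that all `s i`
and all `s i + s j` are congruent to elements of `E`. -/
def HasK5 (E : Set V) : Prop :=
  ∃ K : Submodule (ZMod 2) V, Gen E K ∧ ∃ s : Fin 4 → V,
    (∀ c : Fin 4 → ZMod 2, ∑ i, c i • s i ∈ K → c = 0) ∧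
    (∀ i, Pres E K (s i)) ∧ ∀ i j, i ≠ j → Pres E K (s i + s j)

/-- (S), vertical 4-connectivity in the form in which it is used. -/
def VC (E : Set V) : Prop :=
  ∀ H : Submodule (ZMod 2) V, (∃ a ∈ E, a ∉ H) →
    (∃ b ∈ E, b ∈ H ∧ b ∉ span (ZMod 2) (E \ (H : Set V))) →
    3 ≤ finrank (ZMod 2) ↥(span (ZMod 2) (E \ (H : Set V)) ⊓ H)

/-- `Del4 E e p q r`: the odd triangle at the hub `e`. -/
def Del4 (E : Set V) (e p q r : V) : Prop :=
  e ∈ E ∧ p ∈ E ∧ q ∈ E ∧ r ∈ E ∧ p + e ∈ E ∧ q + e ∈ E ∧ r + e ∈ E ∧
    p + q + e ∈ E ∧ q + r + e ∈ E ∧ p + r + e ∈ E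

/-- The standing assumptions on a minimal counterexample. -/
structure Good (E : Set V) : Prop where
  zero : (0 : V) ∉ E
  span : span (ZMod 2) E = ⊤
  vc : VC E
  free : ¬ HasK5 E

section Count

variable [DecidableEq V] [DecidableEq W]

/-- number of ordered pairs of elements of `E` with sum in `E` (six times the number of
three-point lines) -/
def tri (E : Finset V) : ℕ := ((E ×ˢ E).filter (fun p => p.1 + p.2 ∈ E)).card

/-- twice the number of three-point lines of `E` through `e` -/
def deg (E : Finset V) (e : V) : ℕ := (E.filter (fun a => a + e ∈ E)).card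

/-- the contraction; `π` is a linear map with kernel `{0, e}` -/
def contr (π : V →ₗ[ZMod 2] W) (E : Finset V) : Finset W := (E.image π).erase 0

/-- the doubled points of the contraction by `e` -/
def DD (π : V →ₗ[ZMod 2] W) (E : Finset V) (e : V) : Finset W :=
  ((E.filter (fun a => a + e ∈ E)).image π).erase 0

/-- ordered adjacent pairs of doubled points -/
def EE (π : V →ₗ[ZMod 2] W) (E : Finset V) (e : V) : ℕ :=
  ((DD π E e ×ˢ DD π E e).filter (fun p => p.1 + p.2 ∈ contr π E)).card

end Count

end Pool.Agent.WW
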