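import Pool.Agent.Work.MP_a8f287_co.Bd.B16
import Pool.Agent.Work.MP_a8f287_co.Frozen
import Pool.Agent.Work.MP_a8f287_co.Crit

set_option autoImplicit false

namespace Pool.Agent.Work.MP_a8f287_co.ChromaticSixteen

open Pool.Agent.WW

/-- Let `v : ι → GF(2)^n` be a finite family of nonzero vectors (a coordinatization of a
loopless binary matroid `M` on `ι`). If `M` has no minor isomorphic to `M(K5)`, then its
characteristic polynomial is positive at `16`; so its chromatic number is at most `16`. -/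
theorem result (n : ℕ) (ι : Type) [Fintype ι] [DecidableEq ι] (v : ι → (Fin n → ZMod 2))
    (h0 : ∀ i, v i ≠ 0)
    (hfree : ¬ ∃ (C : Set ι) (h : (⊤ : SimpleGraph (Fin 5)).edgeSet → ι),
          Function.Injective h ∧ (∀ e, h e ∉ C) ∧
          ∀ F : Set (⊤ : SimpleGraph (Fin 5)).edgeSet,
            (LinearIndependent (ZMod 2)
                (fun e : F => (Submodule.span (ZMod 2) (v '' C)).mkQ (v (h e.1))) ↔
              (SimpleGraph.fromEdgeSet (Subtype.val '' F)).IsAcyclic)) :
    0 < ∑ X : Finset ι, (-1 : ℤ) ^ X.card *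
      16 ^ (Module.finrank (ZMod 2) ↥(Submodule.span (ZMod 2) (Set.range v)) -
        Module.finrank (ZMod 2) ↥(Submodule.span (ZMod 2) (v '' (X : Set ι)))) := by
  classical
  have hK : ¬ HasK5 (Set.range v) := by
    intro hK
    obtain ⟨C, h, hC, hinj, hmem, hF⟩ := frozen_of_hasK5 (Set.range v) hK
    choose g hg using fun e => (hmem e).1
    have hC' : v '' (v ⁻¹' C) = C := Set.image_preimage_eq_of_subset hC
    refine hfree ⟨v ⁻¹' C, g, ?_, ?_, ?_⟩
    · intro a b hab
      apply hinj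
      rw [← hg a, ← hg b, hab]
    · intro e he
      exact (hmem e).2 (by rw [← hg e]; exact he)
    · intro F
      rw [← hF F, hC']
      simp only [hg]
  have hr0 : (0 : Fin n → ZMod 2) ∉ Set.range v := by
    rintro ⟨i, hi⟩
    exact h0 i hi
  have hfin : (Set.range v).Finite := Set.toFinite _
  obtain ⟨f, hf⟩ := crit_four hfin.toFinset (fun h => hr0 (hfin.mem_toFinset.1 h))
    (by rw [hfin.coe_toFinset]; exact hK)
  have hcr := crapo_rota v 4
  have hpos : (0 : ℤ) < Nat.card {f : (Fin n → ZMod 2) →ₗ[ZMod 2] (Fin 4 → ZMod 2) //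
      ∀ i, f (v i) ≠ 0} := by
    have hfin2 : Finite ((Fin n → ZMod 2) →ₗ[ZMod 2] (Fin 4 → ZMod 2)) :=
      Module.finite_of_finite (ZMod 2)
    have : Nonempty {f : (Fin n → ZMod 2) →ₗ[ZMod 2] (Fin 4 → ZMod 2) // ∀ i, f (v i) ≠ 0} :=
      ⟨⟨f, fun i => hf _ (hfin.mem_toFinset.2 ⟨i, rfl⟩)⟩⟩
    exact_mod_cast Nat.card_pos
  rw [← hcr] at hpos
  have hfac : ∑ X : Finset ι, (-1 : ℤ) ^ X.card * (2 ^ 4) ^ (Module.finrank (ZMod 2)
      (Fin n → ZMod 2) - Module.finrank (ZMod 2)
        ↥(Submodule.span (ZMod 2) (v '' (X : Set ι)))) =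
      16 ^ (Module.finrank (ZMod 2) (Fin n → ZMod 2) -
        Module.finrank (ZMod 2) ↥(Submodule.span (ZMod 2) (Set.range v))) *
      ∑ X : Finset ι, (-1 : ℤ) ^ X.card *
      16 ^ (Module.finrank (ZMod 2) ↥(Submodule.span (ZMod 2) (Set.range v)) -
        Module.finrank (ZMod 2) ↥(Submodule.span (ZMod 2) (v '' (X : Set ι)))) := by
    rw [Finset.mul_sum]
    apply Finset.sum_congr rfl
    intro X _
    have h1 : Module.finrank (ZMod 2) ↥(Submodule.span (ZMod 2) (v '' (X : Set ι))) ≤
        Module.finrank (ZMod 2) ↥(Submodule.span (ZMod 2) (Set.range v)) :=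
      Submodule.finrank_mono (Submodule.span_mono (Set.image_subset_range v _))
    have h2 : Module.finrank (ZMod 2) ↥(Submodule.span (ZMod 2) (Set.range v)) ≤
        Module.finrank (ZMod 2) (Fin n → ZMod 2) := Submodule.finrank_le _
    have h3 : Module.finrank (ZMod 2) (Fin n → ZMod 2) -
        Module.finrank (ZMod 2) ↥(Submodule.span (ZMod 2) (v '' (X : Set ι))) =
        (Module.finrank (ZMod 2) (Fin n → ZMod 2) -
        Module.finrank (ZMod 2) ↥(Submodule.span (ZMod 2) (Set.range v))) +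
        (Module.finrank (ZMod 2) ↥(Submodule.span (ZMod 2) (Set.range v)) -
        Module.finrank (ZMod 2) ↥(Submodule.span (ZMod 2) (v '' (X : Set ι)))) := by omega
    rw [h3, pow_add]
    norm_num
    ring
  rw [hfac] at hpos
  exact pos_of_mul_pos_right hpos (by positivity)

end Pool.Agent.Work.MP_a8f287_co.ChromaticSixteen
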