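import Pool.Agent.Work.MP_a8f287_co.Bd.B10
import Pool.Agent.Work.MP_a8f287_co.Frozen

set_option autoImplicit false

namespace Pool.Agent.Results.MP_a8f287_co.CriticalFive

open Pool.Agent.WW

/-- Every set `S` of nonzero vectors over `GF(2)` whose vector matroid has no
contraction-deletion minor isomorphic to `M(K5)` has critical exponent at most five: some
linear map to `GF(2)^5` is nonzero on all of `S`. -/
theorem result (n : ℕ) (S : Set (Fin n → ZMod 2)) (h0 : (0 : Fin n → ZMod 2) ∉ S)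
    (hfree : ¬ ∃ (C : Set (Fin n → ZMod 2))
          (h : (⊤ : SimpleGraph (Fin 5)).edgeSet → (Fin n → ZMod 2)),
          C ⊆ S ∧ Function.Injective h ∧ (∀ e, h e ∈ S \ C) ∧
          ∀ F : Set (⊤ : SimpleGraph (Fin 5)).edgeSet,
            (LinearIndependent (ZMod 2)
                (fun e : F => (Submodule.span (ZMod 2) C).mkQ (h e.1)) ↔
              (SimpleGraph.fromEdgeSet (Subtype.val '' F)).IsAcyclic)) :
    ∃ f : (Fin n → ZMod 2) →ₗ[ZMod 2] (Fin 5 → ZMod 2), ∀ v ∈ S, f v ≠ 0 := by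
  classical
  have hK : ¬ HasK5 S := fun h => hfree (frozen_of_hasK5 S h)
  have hfin : S.Finite := Set.toFinite S
  have hc : ((hfin.toFinset : Finset (Fin n → ZMod 2)) : Set (Fin n → ZMod 2)) = S :=
    hfin.coe_toFinset
  obtain ⟨f, hf⟩ := crit_five hfin.toFinset (fun h => h0 (hfin.mem_toFinset.1 h))
    (by rw [hc]; exact hK)
  exact ⟨f, fun v hv => hf v (hfin.mem_toFinset.2 hv)⟩

end Pool.Agent.Results.MP_a8f287_co.CriticalFive
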